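import Pool.Agent.H651R2.SingGraph

set_option autoImplicit false

/-!
# The polarized relation `(κ, κ) → ((κ, λ), (κ, η))` at `κ = λ⁺`: failure and sharpness

Let `λ` be a singular strong limit cardinal with `2 ^ λ = λ⁺` and `κ = λ⁺`.  Then the relation fails
for every `η ≥ 2`; the counterexample is a set `Δ ⊆ κ × κ` in which two different columns
have fewer than `λ` common elements, while each set of `κ` rows meets all but at most `λ`
columns.  In ZFC, for every infinite `λ` and every natural number `n`, the relation with `η = n`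
becomes true if in the colour `0` one of the two entries `κ` is replaced by `λ` (and if it is
the second one, then the entry `λ` of colour `1` can be raised to `κ`).
-/

namespace Pool.Agent.Results.MP_089608_lc.SharpFailure

open Cardinal Set Pool.Agent.H651R2

universe u

/-- The polarized relation `(κ, κ) → ((η₀, η₁), (η₂, η₃))^{1,1}`: for every partition of `κ × κ`
into two disjoint pieces `Δ₀`, `Δ₁` there are `H₁, H₂ ⊆ κ` with `|H₁| = η₀`, `|H₂| = η₂` and
`H₁ × H₂ ⊆ Δ₀`, or there are `H₁, H₂ ⊆ κ` with `|H₁| = η₁`, `|H₂| = η₃` and `H₁ × H₂ ⊆ Δ₁`. -/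
def Polarized (κ η₀ η₁ η₂ η₃ : Cardinal.{u}) : Prop :=
  ∀ Δ₀ Δ₁ : Set (κ.ord.ToType × κ.ord.ToType), Δ₀ ∪ Δ₁ = Set.univ → Disjoint Δ₀ Δ₁ →
    (∃ H₁ H₂ : Set κ.ord.ToType, #H₁ = η₀ ∧ #H₂ = η₂ ∧ H₁ ×ˢ H₂ ⊆ Δ₀) ∨
    (∃ H₁ H₂ : Set κ.ord.ToType, #H₁ = η₁ ∧ #H₂ = η₃ ∧ H₁ ×ˢ H₂ ⊆ Δ₁)

/-- The relation `(∗)_η` for `κ = lam⁺`: `(κ, κ) → ((κ, lam), (κ, η))^{1,1}`. -/
def Star (lam η : Cardinal.{u}) : Prop :=
  Polarized (Order.succ lam) (Order.succ lam) lam (Order.succ lam) η

/-- The counterexample. -/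
theorem exists_delta (lam : Cardinal.{u}) (hlam : lam.IsSingular)
    (hstr : ∀ c < lam, (2 : Cardinal.{u}) ^ c < lam)
    (h2 : (2 : Cardinal.{u}) ^ lam = Order.succ lam) :
    ∃ Δ : Set ((Order.succ lam).ord.ToType × (Order.succ lam).ord.ToType),
      (∀ α β, α ≠ β → #{x | (x, α) ∈ Δ ∧ (x, β) ∈ Δ} < lam) ∧
      ∀ H : Set (Order.succ lam).ord.ToType, #H = Order.succ lam →
        #{α | ∀ x ∈ H, (x, α) ∉ Δ} ≤ lam := by
  have hinf : ℵ₀ ≤ lam := hlam.aleph0_le
  have hK : #(Order.succ lam).ord.ToType = Order.succ lam := mk_ord_toType _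
  have hI : ∀ a : (Order.succ lam).ord.ToType, #(Iio a) ≤ lam := by
    intro a
    have h := mk_Iio_lt a (by rw [hK]; simp)
    rw [hK] at h
    exact Order.lt_succ_iff.1 h
  obtain ⟨N, -, hN2, hN3⟩ := exists_family hlam (fun c hc => (hstr c hc).le) h2 hK hI
  refine ⟨{p | p.1 ∈ N p.2}, fun α β hne => hN2 α β hne, fun H hH => ?_⟩
  have hunb : ∀ γ, ∃ α ∈ H, γ < α := by
    intro γ
    by_contra hcon
    push Not at hcon
    have h1 : #H ≤ lam :=
      small_mono (t := Iic γ) (fun x hx => hcon x hx) (small_Iic hinf (hI γ))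
    rw [hH] at h1
    exact absurd h1 (not_le.2 (Order.lt_succ _))
  obtain ⟨b, hb⟩ := hN3 H hunb
  refine small_mono (t := Iic b) ?_ (small_Iic hinf (hI b))
  intro α hα
  by_contra hbα
  obtain ⟨x, hx1, hx2⟩ := hb α (not_le.1 hbα)
  exact hα x hx2 hx1

theorem not_star (lam : Cardinal.{u}) (hlam : lam.IsSingular)
    (hstr : ∀ c < lam, (2 : Cardinal.{u}) ^ c < lam)
    (h2 : (2 : Cardinal.{u}) ^ lam = Order.succ lam) (η : Cardinal.{u}) (hη : 1 < η) :
    ¬ Star lam η := by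
  obtain ⟨Δ, hΔ1, hΔ2⟩ := exists_delta lam hlam hstr h2
  intro hstar
  rcases hstar Δᶜ Δ (compl_union_self Δ) disjoint_compl_left with
    ⟨H₁, H₂, h1, h2, h3⟩ | ⟨H₁, H₂, h1, h2, h3⟩
  · have h4 : #H₂ ≤ lam := small_mono (t := {α | ∀ x ∈ H₁, (x, α) ∉ Δ})
      (fun α hα x hx => h3 (Set.mk_mem_prod hx hα)) (hΔ2 H₁ h1)
    rw [h2] at h4
    exact absurd h4 (not_le.2 (Order.lt_succ _))
  · have h4 : ∃ α ∈ H₂, ∃ β ∈ H₂, α ≠ β := by
      rw [← h2] at hη
      have : Nontrivial H₂ := one_lt_iff_nontrivial.1 hη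
      obtain ⟨⟨α, hα⟩, ⟨β, hβ⟩, hne⟩ := exists_pair_ne H₂
      exact ⟨α, hα, β, hβ, fun h => hne (Subtype.ext h)⟩
    obtain ⟨α, hα, β, hβ, hne⟩ := h4
    have h5 : lam ≤ #{x | (x, α) ∈ Δ ∧ (x, β) ∈ Δ} := by
      refine h1.ge.trans (mk_le_mk_of_subset fun x hx => ?_)
      exact ⟨h3 (Set.mk_mem_prod hx hα), h3 (Set.mk_mem_prod hx hβ)⟩
    exact absurd (hΔ1 α β hne) (not_lt.2 h5)

/-- a maximal finite set with the property `Q` -/
theorem exists_maximal {K : Type u} [DecidableEq K] (Q : Finset K → Prop) (h0 : Q ∅) (n : ℕ)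
    (hn : ∀ s : Finset K, s.card = n → ¬ Q s) : ∃ s, Q s ∧ ∀ β, β ∉ s → ¬ Q (insert β s) := by
  by_contra hcon
  push Not at hcon
  have h1 : ∀ m : ℕ, ∃ s : Finset K, s.card = m ∧ Q s := by
    intro m
    induction m with
    | zero => exact ⟨∅, rfl, h0⟩
    | succ m ih =>
      obtain ⟨s, hs, hQ⟩ := ih
      obtain ⟨β, hβ, hQ'⟩ := hcon s hQ
      exact ⟨insert β s, by rw [Finset.card_insert_of_notMem hβ, hs], hQ'⟩
  obtain ⟨s, hs, hQ⟩ := h1 n
  exact hn s hs hQ

/-- The complement of a finite set in a set of size `lam⁺` has size `lam⁺`. -/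
theorem not_small_compl {K : Type u} {lam : Cardinal.{u}} (hinf : ℵ₀ ≤ lam)
    (hK : #K = Order.succ lam) (s : Finset K) : ¬ #{β : K | β ∉ s} ≤ lam := by
  intro h
  have h1 : #(Set.univ : Set K) ≤ lam := by
    refine small_mono (t := {β : K | β ∉ s} ∪ (s : Set K)) ?_
      (small_union hinf h (small_finite hinf s.finite_toSet))
    intro β _
    by_cases hβ : β ∈ s
    · exact Or.inr hβ
    · exact Or.inl hβ
  rw [mk_univ, hK] at h1
  exact absurd h1 (not_le.2 (Order.lt_succ _))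

/-- If the second entry of colour `0` is lowered to `lam` then the relation holds. -/
theorem second_entry (lam : Cardinal.{u}) (hinf : ℵ₀ ≤ lam) (n : ℕ) :
    Polarized (Order.succ lam) (Order.succ lam) (Order.succ lam) lam n := by
  classical
  intro Δ₀ Δ₁ hun _
  have hK : #(Order.succ lam).ord.ToType = Order.succ lam := mk_ord_toType _
  by_cases hc : ∃ H₁ H₂ : Set (Order.succ lam).ord.ToType, #H₁ = Order.succ lam ∧
      #H₂ = (n : Cardinal.{u}) ∧ H₁ ×ˢ H₂ ⊆ Δ₁
  · exact Or.inr hc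
  left
  push Not at hc
  have hle : ∀ S : Set (Order.succ lam).ord.ToType, #S ≤ Order.succ lam := fun S =>
    (mk_set_le S).trans_eq hK
  obtain ⟨s, hs, hmax⟩ := exists_maximal
    (fun s : Finset (Order.succ lam).ord.ToType => ¬ #{x | ∀ α ∈ s, (x, α) ∈ Δ₁} ≤ lam)
    (by
      intro h
      have h1 : #(Set.univ : Set (Order.succ lam).ord.ToType) ≤ lam :=
        small_mono (t := {x | ∀ α ∈ (∅ : Finset (Order.succ lam).ord.ToType), (x, α) ∈ Δ₁})
          (fun x _ α hα => absurd hα (Finset.notMem_empty α)) h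
      rw [mk_univ, hK] at h1
      exact absurd h1 (not_le.2 (Order.lt_succ _))) n
    (by
      intro s hs hQ
      refine hc {x | ∀ α ∈ s, (x, α) ∈ Δ₁} (s : Set _) ?_ (by simp [hs]) ?_
      · exact le_antisymm (hle _) (Order.succ_le_of_lt (not_le.1 hQ))
      · rintro ⟨x, α⟩ ⟨hx, hα⟩
        exact hx α hα)
  push Not at hmax
  obtain ⟨H₂, hH₂, hH₂c⟩ := Cardinal.le_mk_iff_exists_subset.1
    (not_le.1 (not_small_compl hinf hK s)).le
  refine ⟨{x | ∀ α ∈ s, (x, α) ∈ Δ₁} \ ⋃ β ∈ H₂, {x | ∀ α ∈ insert β s, (x, α) ∈ Δ₁}, H₂, ?_,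
    hH₂c, ?_⟩
  · refine le_antisymm (hle _) (Order.succ_le_of_lt (not_le.1 ?_))
    exact not_small_diff hinf hs (small_biUnion hinf H₂ hH₂c.le _ fun β hβ => hmax β (hH₂ hβ))
  · rintro ⟨x, β⟩ ⟨hx, hβ⟩
    have h1 : (x, β) ∈ Δ₀ ∪ Δ₁ := by rw [hun]; exact mem_univ _
    rcases h1 with h1 | h1
    · exact h1
    · exfalso
      apply hx.2
      simp only [mem_iUnion]
      refine ⟨β, hβ, ?_⟩
      intro α hα
      rcases Finset.mem_insert.1 hα with h2 | h2
      · rw [h2]; exact h1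
      · exact hx.1 α h2

/-- If the first entry of colour `0` is lowered to `lam` then the relation holds. -/
theorem first_entry (lam : Cardinal.{u}) (hinf : ℵ₀ ≤ lam) (n : ℕ) :
    Polarized (Order.succ lam) lam lam (Order.succ lam) n := by
  classical
  intro Δ₀ Δ₁ hun _
  have hK : #(Order.succ lam).ord.ToType = Order.succ lam := mk_ord_toType _
  by_cases hc : ∃ H₁ H₂ : Set (Order.succ lam).ord.ToType, #H₁ = lam ∧
      #H₂ = (n : Cardinal.{u}) ∧ H₁ ×ˢ H₂ ⊆ Δ₁
  · exact Or.inr hc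
  left
  push Not at hc
  obtain ⟨s, hs, hmax⟩ := exists_maximal
    (fun s : Finset (Order.succ lam).ord.ToType => lam ≤ #{x | ∀ α ∈ s, (x, α) ∈ Δ₁})
    (by
      refine (Order.le_succ lam).trans (hK.ge.trans ?_)
      rw [← mk_univ]
      exact mk_le_mk_of_subset fun x _ α hα => absurd hα (Finset.notMem_empty α)) n
    (by
      intro s hs hQ
      obtain ⟨H₁, hH₁, hH₁c⟩ := Cardinal.le_mk_iff_exists_subset.1 hQ
      refine hc H₁ (s : Set _) hH₁c (by simp [hs]) ?_
      rintro ⟨x, α⟩ ⟨hx, hα⟩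
      exact hH₁ hx α hα)
  push Not at hmax
  -- a square of size `lam` inside the intersection of the columns in `s`
  let L : Type u := lam.ord.ToType
  have hL : #L = lam := mk_ord_toType _
  obtain ⟨e⟩ : Nonempty (L × L ↪ {x | ∀ α ∈ s, (x, α) ∈ Δ₁}) := by
    have h1 : #(L × L) ≤ #{x | ∀ α ∈ s, (x, α) ∈ Δ₁} := by
      rw [mk_prod, Cardinal.lift_id, hL, mul_eq_self hinf]
      exact hs
    exact h1
  have hrow : ∀ β : (Order.succ lam).ord.ToType, β ∉ s →
      ∃ i : L, ∀ j : L, ((e (i, j)).1, β) ∉ Δ₁ := by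
    intro β hβ
    by_contra hno
    push Not at hno
    choose j hj using hno
    refine absurd (hmax β hβ) (not_lt.2 (hL.ge.trans ?_))
    refine mk_le_of_injective
      (f := fun i : L => (⟨(e (i, j i)).1, ?_⟩ : {x | ∀ α ∈ insert β s, (x, α) ∈ Δ₁})) ?_
    · intro α hα
      rcases Finset.mem_insert.1 hα with h2 | h2
      · rw [h2]; exact hj i
      · exact (e (i, j i)).2 α h2
    · intro i i' hii
      have h3 := congrArg Subtype.val hii
      have h4 := e.injective (Subtype.ext h3)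
      exact congrArg Prod.fst h4
  -- some row is free for many columns
  obtain ⟨i, hi⟩ : ∃ i : L, ¬ #{β | β ∉ s ∧ ∀ j : L, ((e (i, j)).1, β) ∉ Δ₁} ≤ lam := by
    by_contra hno
    push Not at hno
    apply not_small_compl hinf hK s
    refine small_mono (t := ⋃ i : L, {β | β ∉ s ∧ ∀ j : L, ((e (i, j)).1, β) ∉ Δ₁}) ?_
      (small_iUnion hinf hL.le _ hno)
    intro β hβ
    obtain ⟨i, hi⟩ := hrow β hβ
    exact mem_iUnion.2 ⟨i, hβ, hi⟩
  refine ⟨range (fun j : L => (e (i, j)).1), {β | β ∉ s ∧ ∀ j : L, ((e (i, j)).1, β) ∉ Δ₁}, ?_,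
    ?_, ?_⟩
  · rw [mk_range_eq _ (fun j j' hjj => by
      have h4 := e.injective (Subtype.ext hjj)
      exact congrArg Prod.snd h4), hL]
  · exact le_antisymm ((mk_set_le _).trans_eq hK) (Order.succ_le_of_lt (not_le.1 hi))
  · rintro ⟨x, β⟩ ⟨⟨j, rfl⟩, hβ⟩
    have h1 : ((e (i, j)).1, β) ∈ Δ₀ ∪ Δ₁ := by rw [hun]; exact mem_univ _
    rcases h1 with h1 | h1
    · exact h1
    · exact absurd h1 (hβ.2 j)

/-- Let `lam` be a singular cardinal and `κ = lam⁺`.

(1) If `lam` is a strong limit and `2 ^ lam = lam⁺` then `(∗)_η` fails for every `η > 1`; moreover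
there is a set `Δ ⊆ κ × κ` such that the columns over two different points have fewer than `lam`
common elements and each set of `κ` rows is disjoint from at most `lam` columns.

(2) In ZFC, for every natural number `n`, the relation `(∗)_n` becomes true if the first entry of
colour `0` is lowered from `κ` to `lam`, and also if the second entry of colour `0` is lowered
from `κ` to `lam`; in the second case one can also raise the first entry of colour `1` to `κ`. -/
theorem result (lam : Cardinal.{u}) (hlam : lam.IsSingular) :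
    ((∀ c < lam, (2 : Cardinal.{u}) ^ c < lam) → (2 : Cardinal.{u}) ^ lam = Order.succ lam →
      (∀ η : Cardinal.{u}, 1 < η → ¬ Star lam η) ∧
      ∃ Δ : Set ((Order.succ lam).ord.ToType × (Order.succ lam).ord.ToType),
        (∀ α β, α ≠ β → #{x | (x, α) ∈ Δ ∧ (x, β) ∈ Δ} < lam) ∧
        ∀ H : Set (Order.succ lam).ord.ToType, #H = Order.succ lam →
          #{α | ∀ x ∈ H, (x, α) ∉ Δ} ≤ lam) ∧
    (∀ n : ℕ, Polarized (Order.succ lam) lam lam (Order.succ lam) n ∧
      Polarized (Order.succ lam) (Order.succ lam) (Order.succ lam) lam n) :=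
  ⟨fun hstr h2 => ⟨fun η hη => not_star lam hlam hstr h2 η hη, exists_delta lam hlam hstr h2⟩,
    fun n => ⟨first_entry lam hlam.aleph0_le n, second_entry lam hlam.aleph0_le n⟩⟩

end Pool.Agent.Results.MP_089608_lc.SharpFailure
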